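import Pool.Agent.Helper62.LH.StS

/-!
# LH module EX: the Hodge star exists and is smooth
-/

set_option autoImplicit false
set_option maxSynthPendingDepth 3

open Set Filter Topology MeasureTheory
open scoped ContDiff ENNReal
open Helper62.LH

noncomputable section

namespace Pool.Agent.Helper94.LH

theorem hEx (hShp : StShp) (hDlv : StDlv) (hEpf : StEpf) : StEx := by
  intro n k l h g Γ hg hΓ φ hφ
  obtain ⟨_, _, hgi, _⟩ := hShp n g Γ hg hΓ
  obtain ⟨hvol, _, _⟩ := hDlv n g Γ hg hΓ
  obtain ⟨_, _, hA, _⟩ := hEpf n k l h (by omega)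
  choose A hA using hA
  have hev : ∀ u : Fin k → E n, ContDiff ℝ ∞ (fun x => φ x u) := fun u =>
    (ContinuousAlternatingMap.apply ℝ (E n) ℝ u).contDiff.comp hφ
  refine ⟨fun x => ∑ I : Fin k → Fin n, ∑ J : Fin k → Fin n,
    ((vol g x / k.factorial) * ((∏ a, gi g x (I a) (J a)) * φ x (fun a => ee (J a)))) •
      A (fun a => ee (I a)), ?_, ?_⟩
  · apply ContDiff.sum
    intro I _
    apply ContDiff.sum
    intro J _
    have h1 : ContDiff ℝ ∞ (fun x => (vol g x / k.factorial) *
        ((∏ a, gi g x (I a) (J a)) * φ x (fun a => ee (J a)))) :=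
      (hvol.div_const _).mul ((contDiff_prod fun a _ => hgi _ _).mul (hev _))
    exact h1.smul contDiff_const
  · intro x w
    simp only [ContinuousAlternatingMap.sum_apply, ContinuousAlternatingMap.smul_apply, hA,
      smul_eq_mul, Finset.mul_sum]
    refine Finset.sum_congr rfl fun I _ => Finset.sum_congr rfl fun J _ => ?_
    ring

end Pool.Agent.Helper94.LH
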