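import Pool.Agent.Helper62.LH.StG

/-!
# LH module RGC: a metric geodesic is a geodesic
-/

set_option autoImplicit false
set_option maxSynthPendingDepth 3

open Set Filter Topology MeasureTheory
open scoped ContDiff ENNReal
open Helper62.LH

noncomputable section

namespace Pool.Agent.Helper94.LH

theorem equiv_RGC {n : ℕ} {g : E n → Bl n} (hg : IsMet g) (x : E n) :
    ∃ e : E n ≃L[ℝ] (E n →L[ℝ] ℝ), (e : E n →L[ℝ] (E n →L[ℝ] ℝ)) = g x := by
  have hinj : Function.Injective (g x : E n →ₗ[ℝ] (E n →L[ℝ] ℝ)) := by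
    rw [← LinearMap.ker_eq_bot, LinearMap.ker_eq_bot']
    intro z hz
    by_contra hne
    have h1 := hg.pos x z hne
    have h2 : g x z = 0 := hz
    rw [h2] at h1
    simp at h1
  have hdim : Module.finrank ℝ (E n) = Module.finrank ℝ (E n →L[ℝ] ℝ) := by
    rw [← (LinearMap.toContinuousLinearMap (𝕜 := ℝ) (E := E n) (F' := ℝ)).finrank_eq]
    exact (Subspace.dual_finrank_eq (K := ℝ) (V := E n)).symm
  refine ⟨(LinearMap.linearEquivOfInjective _ hinj hdim).toContinuousLinearEquiv, ?_⟩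
  ext z w
  rfl

/-- the inverse of the metric -/
def SS {n : ℕ} (g : E n → Bl n) (x : E n) : (E n →L[ℝ] ℝ) →L[ℝ] E n :=
  ContinuousLinearMap.inverse (g x)

theorem SS_left {n : ℕ} {g : E n → Bl n} (hg : IsMet g) (x z : E n) : SS g x (g x z) = z := by
  obtain ⟨e, he⟩ := equiv_RGC hg x
  unfold SS
  rw [← he, ContinuousLinearMap.inverse_equiv]
  exact e.symm_apply_apply z

theorem SS_right {n : ℕ} {g : E n → Bl n} (hg : IsMet g) (x : E n) (p : E n →L[ℝ] ℝ) :
    g x (SS g x p) = p := by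
  obtain ⟨e, he⟩ := equiv_RGC hg x
  unfold SS
  rw [← he, ContinuousLinearMap.inverse_equiv]
  exact e.apply_symm_apply p

theorem SS_smooth {n : ℕ} {g : E n → Bl n} (hg : IsMet g) : ContDiff ℝ 1 (SS g) := by
  rw [contDiff_iff_contDiffAt]
  intro x
  obtain ⟨e, he⟩ := equiv_RGC hg x
  have h1 : ContDiffAt ℝ 1 (ContinuousLinearMap.inverse : (E n →L[ℝ] (E n →L[ℝ] ℝ)) →
      ((E n →L[ℝ] ℝ) →L[ℝ] E n)) (g x) := by
    rw [← he]
    exact contDiffAt_map_inverse e
  have h2 : ContDiffAt ℝ 1 g x := hg.smooth.contDiffAt.of_le (by exact_mod_cast le_top)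
  exact h1.comp x h2

theorem inj_RGC {n : ℕ} {g : E n → Bl n} (hg : IsMet g) (x a b : E n) (h : g x a = g x b) :
    a = b := by
  rw [← SS_left hg x a, h, SS_left hg]

/-- the force term -/
def Qm {n : ℕ} (g : E n → Bl n) (x v : E n) : E n →L[ℝ] ℝ :=
  (1 / 2 : ℝ) • ((fderiv ℝ g x).flip v).flip v

theorem Qm_apply {n : ℕ} (g : E n → Bl n) (x v z : E n) :
    Qm g x v z = fderiv ℝ g x z v v / 2 := by
  unfold Qm
  simp only [smul_apply, ContinuousLinearMap.flip_apply, smul_eq_mul]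
  ring

theorem Qm_cont {n : ℕ} {g : E n → Bl n} (hg : IsMet g) :
    Continuous (fun q : E n × E n => Qm g q.1 q.2) := by
  have h1 : Continuous (fderiv ℝ g) := hg.smooth.continuous_fderiv (by simp)
  have h2 : Continuous (fun q : E n × E n => (fderiv ℝ g q.1).flip) :=
    (ContinuousLinearMap.flipₗᵢ ℝ (E n) (E n) (E n →L[ℝ] ℝ)).continuous.comp
      (h1.comp continuous_fst)
  have h3 : Continuous (fun q : E n × E n => (fderiv ℝ g q.1).flip q.2) :=
    h2.clm_apply continuous_snd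
  have h4 : Continuous (fun q : E n × E n => ((fderiv ℝ g q.1).flip q.2).flip) :=
    (ContinuousLinearMap.flipₗᵢ ℝ (E n) (E n) ℝ).continuous.comp h3
  exact (h4.clm_apply continuous_snd).const_smul (1 / 2 : ℝ)

attribute [irreducible] Qm SS

theorem int_RGC {n : ℕ} {G : Type} [NormedAddCommGroup G] (F : E n × E n → G)
    (hF : Continuous F) (γ : ℝ → E n) (K : NNReal) (hγ : LipschitzWith K γ) (a b : ℝ) :
    IntervalIntegrable (fun t => F (γ t, deriv γ t)) volume a b := by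
  have hm : StronglyMeasurable (fun t => F (γ t, deriv γ t)) :=
    hF.comp_stronglyMeasurable (hγ.continuous.stronglyMeasurable.prodMk
      (stronglyMeasurable_deriv γ))
  have hcpt : IsCompact ((γ '' uIcc a b) ×ˢ Metric.closedBall (0 : E n) K) :=
    (isCompact_uIcc.image hγ.continuous).prod (isCompact_closedBall _ _)
  obtain ⟨M, hM⟩ := hcpt.exists_bound_of_continuousOn hF.continuousOn
  rw [intervalIntegrable_iff]
  refine Measure.integrableOn_of_bounded (M := M) ?_ hm.aestronglyMeasurable ?_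
  · rw [uIoc, Real.volume_Ioc]
    exact ENNReal.ofReal_ne_top
  · filter_upwards [ae_restrict_mem measurableSet_uIoc] with t ht
    apply hM
    refine ⟨⟨t, uIoc_subset_uIcc ht, rfl⟩, ?_⟩
    rw [mem_closedBall_zero_iff]
    exact norm_deriv_le_of_lipschitz hγ

/-- fundamental theorem of calculus for a Lipschitz curve with a continuous velocity -/
theorem ftc_RGC {n : ℕ} (γ v : ℝ → E n) (K : NNReal) (hγ : LipschitzWith K γ)
    (hvc : Continuous v)
    (hv : ∀ᵐ t : ℝ, t ∈ Icc (0 : ℝ) 1 → DifferentiableAt ℝ γ t ∧ deriv γ t = v t) :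
    (∀ t, HasDerivAt (fun t => γ 0 + ∫ s in (0 : ℝ)..t, v s) (v t) t) ∧
    ∀ t ∈ Icc (0 : ℝ) 1, γ 0 + ∫ s in (0 : ℝ)..t, v s = γ t := by
  have hGd : ∀ t, HasDerivAt (fun t => γ 0 + ∫ s in (0 : ℝ)..t, v s) (v t) t := by
    intro t
    have h2 := (hvc.integral_hasStrictDerivAt 0 t).hasDerivAt
    exact h2.const_add (γ 0)
  refine ⟨hGd, ?_⟩
  have hac : AbsolutelyContinuousOnInterval
      (fun t => γ t - (γ 0 + ∫ s in (0 : ℝ)..t, v s)) 0 1 := by
    apply AbsolutelyContinuousOnInterval.fun_sub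
    · exact (hγ.lipschitzOnWith (s := uIcc (0 : ℝ) 1)).absolutelyContinuousOnInterval
    · apply ContDiffOn.absolutelyContinuousOnInterval
      apply ContDiff.contDiffOn
      rw [contDiff_one_iff_deriv]
      refine ⟨fun t => (hGd t).differentiableAt, ?_⟩
      have : deriv (fun t => γ 0 + ∫ s in (0 : ℝ)..t, v s) = v := funext fun t => (hGd t).deriv
      rw [this]
      exact hvc
  obtain ⟨D, hD⟩ := hac.const_of_ae_hasDerivAt_zero (by
    filter_upwards [hv] with t ht ht2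
    rw [uIcc_of_le zero_le_one] at ht2
    obtain ⟨h2, h3⟩ := ht ht2
    have h4 := h2.hasDerivAt.sub (hGd t)
    rw [h3, sub_self] at h4
    exact h4)
  rw [uIcc_of_le zero_le_one] at hD
  intro t ht
  have h2 := hD t ht
  have h3 := hD 0 (left_mem_Icc.2 zero_le_one)
  rw [intervalIntegral.integral_same, add_zero, sub_self] at h3
  rw [← h3, sub_eq_zero] at h2
  exact h2.symm

/-- the equation of geodesics -/
theorem geo_RGC {n : ℕ} {g : E n → Bl n} {Γ : E n → Bm n} (hg : IsMet g) (hΓ : IsChr g Γ)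
    (G v : ℝ → E n) (pp : ℝ → (E n →L[ℝ] ℝ)) (t : ℝ) (hG : HasDerivAt G (v t) t)
    (hpp : HasDerivAt pp (Qm g (G t) (v t)) t) (hvt : SS g (G t) (pp t) = v t) :
    HasDerivAt (fun s => SS g (G s) (pp s)) (-(Γ (G t) (v t) (v t))) t := by
  have hS1 : HasDerivAt (fun s => SS g (G s)) (fderiv ℝ (SS g) (G t) (v t)) t := by
    have h2 : HasFDerivAt (SS g) (fderiv ℝ (SS g) (G t)) (G t) :=
      ((SS_smooth hg).differentiable (by norm_num) (G t)).hasFDerivAt
    exact h2.comp_hasDerivAt t hG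
  have hw := hS1.clm_apply hpp
  obtain ⟨w, hwdef⟩ : ∃ w : E n, w = (fderiv ℝ (SS g) (G t) (v t)) (pp t) +
      SS g (G t) (Qm g (G t) (v t)) := ⟨_, rfl⟩
  rw [← hwdef] at hw
  have hg1 : HasDerivAt (fun s => g (G s)) (fderiv ℝ g (G t) (v t)) t := by
    have h2 : HasFDerivAt g (fderiv ℝ g (G t)) (G t) :=
      (hg.smooth.differentiable (by simp) (G t)).hasFDerivAt
    exact h2.comp_hasDerivAt t hG
  have h3 := hg1.clm_apply hw
  have h4 : (fun s => g (G s) (SS g (G s) (pp s))) = pp := by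
    funext s
    exact SS_right hg (G s) (pp s)
  rw [h4] at h3
  have h5 := h3.unique hpp
  rw [hvt] at h5
  have h6 : w = -(Γ (G t) (v t) (v t)) := by
    apply inj_RGC hg (G t)
    ext z
    have h7 := congrArg (fun f : E n →L[ℝ] ℝ => f z) h5
    simp only [add_apply, Qm_apply] at h7
    have h8 := hΓ (G t) (v t) (v t) z
    rw [map_neg, neg_apply, h8]
    linarith
  rw [← h6]
  exact hw

/-- two momenta: the second one is `C¹` -/
theorem mom_RGC {n : ℕ} {g : E n → Bl n} (hg : IsMet g) (γ v : ℝ → E n) (hγ : Continuous γ)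
    (hvc : Continuous v) (C : E n →L[ℝ] ℝ)
    (hv : ∀ᵐ t : ℝ, t ∈ Icc (0 : ℝ) 1 → DifferentiableAt ℝ γ t ∧ deriv γ t = v t) :
    ∃ pp : ℝ → (E n →L[ℝ] ℝ), (∀ t, HasDerivAt pp (Qm g (γ t) (v t)) t) ∧
      ∀ t ∈ Icc (0 : ℝ) 1, pp t = C + ∫ s in (0 : ℝ)..t, Qm g (γ s) (deriv γ s) := by
  have hQc : Continuous (fun t => Qm g (γ t) (v t)) := by
    have h1 : Continuous (fun t => (γ t, v t)) := hγ.prodMk hvc
    exact (Qm_cont hg).comp h1
  refine ⟨fun t => C + ∫ s in (0 : ℝ)..t, Qm g (γ s) (v s), ?_, ?_⟩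
  · intro t
    have h2 := (hQc.integral_hasStrictDerivAt 0 t).hasDerivAt
    exact h2.const_add C
  · intro t ht
    have h3 : ∫ s in (0 : ℝ)..t, Qm g (γ s) (v s) =
        ∫ s in (0 : ℝ)..t, Qm g (γ s) (deriv γ s) := by
      apply intervalIntegral.integral_congr_ae
      filter_upwards [hv] with s hs hs2
      rw [uIoc_of_le ht.1] at hs2
      rw [(hs ⟨hs2.1.le, hs2.2.trans ht.2⟩).2]
    show C + ∫ s in (0 : ℝ)..t, Qm g (γ s) (v s) = _
    rw [h3]

theorem hRgc (hRga : StRga) (hRgb : StRgb) (hDbr : StDbr) : StRgc := by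
  intro n g Γ hg hΓ c x y hc
  obtain ⟨γ, K, hγ, hγc, hae⟩ := hRga n g hg c x y hc
  have h0 : γ 0 = x := by rw [hγc 0 (left_mem_Icc.2 zero_le_one)]; exact hc.1
  have h1 : γ 1 = y := by rw [hγc 1 (right_mem_Icc.2 zero_le_one)]; exact hc.2.1
  have hint := hRgb n g hg γ K hγ (by rw [h0, h1]; exact hae)
  have hgc : Continuous g := hg.smooth.continuous
  have hPc : Continuous (fun q : E n × E n => g q.1 q.2) :=
    (hgc.comp continuous_fst).clm_apply continuous_snd
  have hPi : ∀ a b, IntervalIntegrable (fun t => g (γ t) (deriv γ t)) volume a b :=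
    int_RGC (fun q : E n × E n => g q.1 q.2) hPc γ K hγ
  have hQi : ∀ a b, IntervalIntegrable (fun t => Qm g (γ t) (deriv γ t)) volume a b :=
    int_RGC (fun q : E n × E n => Qm g q.1 q.2) (Qm_cont hg) γ K hγ
  obtain ⟨C, hC⟩ := hDbr n (fun t => g (γ t) (deriv γ t)) (fun t => Qm g (γ t) (deriv γ t))
    (hPi 0 1) (hQi 0 1) (by
      intro ξ hξ1 hξ2 hξ3
      refine Eq.trans ?_ (hint ξ hξ1 hξ2 hξ3)
      apply intervalIntegral.integral_congr
      intro t _
      simp only [Qm_apply])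
  obtain ⟨p, hp⟩ : ∃ p : ℝ → (E n →L[ℝ] ℝ),
      ∀ t, p t = C + ∫ s in (0 : ℝ)..t, Qm g (γ s) (deriv γ s) := ⟨_, fun _ => rfl⟩
  have hpc : Continuous p := by
    rw [show p = fun t => C + ∫ s in (0 : ℝ)..t, Qm g (γ s) (deriv γ s) from funext hp]
    exact continuous_const.add (intervalIntegral.continuous_primitive hQi 0)
  have hSc : Continuous (SS g) := (SS_smooth hg).continuous
  obtain ⟨v, hv⟩ : ∃ v : ℝ → E n, ∀ t, v t = SS g (γ t) (p t) := ⟨_, fun _ => rfl⟩
  have hvc : Continuous v := by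
    rw [show v = fun t => SS g (γ t) (p t) from funext hv]
    exact (hSc.comp hγ.continuous).clm_apply hpc
  have hvae : ∀ᵐ t ∂(volume.restrict (Icc (0 : ℝ) 1)), DifferentiableAt ℝ γ t ∧
      deriv γ t = v t := by
    filter_upwards [hC, hae] with t ht ht2
    refine ⟨ht2.1, ?_⟩
    rw [hv, hp, ← ht, SS_left hg]
  have hvae2 : ∀ᵐ t : ℝ, t ∈ Icc (0 : ℝ) 1 → DifferentiableAt ℝ γ t ∧ deriv γ t = v t :=
    (ae_restrict_iff' measurableSet_Icc).1 hvae
  obtain ⟨hGd, hGγ⟩ := ftc_RGC γ v K hγ hvc hvae2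
  obtain ⟨G, hG⟩ : ∃ G : ℝ → E n, G = fun t => γ 0 + ∫ s in (0 : ℝ)..t, v s := ⟨_, rfl⟩
  rw [← hG] at hGd
  have hGγ' : ∀ t ∈ Icc (0 : ℝ) 1, G t = γ t := by
    intro t ht
    rw [hG]
    exact hGγ t ht
  -- the momentum is `C¹`
  obtain ⟨pp, hppd, hppp0⟩ := mom_RGC hg γ v hγ.continuous hvc C hvae2
  have hppp : ∀ t ∈ Icc (0 : ℝ) 1, pp t = p t := fun t ht => by rw [hppp0 t ht, hp]
  have hvvv : ∀ t ∈ Icc (0 : ℝ) 1, SS g (G t) (pp t) = v t := by
    intro t ht
    rw [hv, hGγ' t ht, hppp t ht]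
  have hGc : ∀ t ∈ Icc (0 : ℝ) 1, c t = G t := fun t ht => by rw [hGγ' t ht, hγc t ht]
  refine ⟨v, ⟨?_, ?_⟩, ?_⟩
  · intro t ht
    exact ((hGd t).hasDerivWithinAt).congr (fun s hs => hGc s hs) (hGc t ht)
  · intro t ht
    have h2 := geo_RGC hg hΓ G v pp t (hGd t) (by rw [hGγ' t ht]; exact hppd t) (hvvv t ht)
    rw [hGc t ht]
    exact h2.hasDerivWithinAt.congr (fun s hs => (hvvv s hs).symm) (hvvv t ht).symm
  · have hcont : Continuous (fun t => g (γ t) (v t) (v t)) :=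
      ((hgc.comp hγ.continuous).clm_apply hvc).clm_apply hvc
    have hEq : EqOn (fun t => g (γ t) (v t) (v t)) (fun _ => dg g x y ^ 2) (Icc (0 : ℝ) 1) := by
      apply Measure.eqOn_Icc_of_ae_eq (μ := volume) zero_ne_one ?_ hcont.continuousOn
        continuousOn_const
      filter_upwards [hvae, hae] with t ht ht2
      rw [← ht.2]
      exact ht2.2
    intro t ht
    rw [← hγc t ht]
    exact hEq ht

end Pool.Agent.Helper94.LH
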